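import Mathlib
import Pool.Agent.H321R2.OSI.Lower

/-!
# Q1: with constant failure probability the relative-error bound fails
-/

set_option autoImplicit false

namespace Pool.Agent.Results.MP_082b65_an.ConstantFailure

open MeasureTheory Matrix Finset Pool.Agent.H321R2.OSI

/-- The bound of Q1 with failure probability `δ`, constant `C` and success probability `p₀`: for
every `ε ∈ (0,1)`, every real matrix `A` (`n × d`), every `1 ≤ r ≤ d` and every random `d × k`
matrix `S` that is an oblivious subspace injection with dimension `r`, injectivity `1 - ε` and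
failure probability `δ`, there is an event `D` of probability at least `p₀` on which
`‖A - Ã‖_F ≤ (1 + C ε) ‖A - A_r‖_F`. -/
def ConstBound (δ C p₀ : ℝ) : Prop :=
  ∀ ε : ℝ, 0 < ε → ε < 1 →
    ∀ (n d k r : ℕ), 1 ≤ r → r ≤ d → ∀ (A : Matrix (Fin n) (Fin d) ℝ)
      (W : Type) (_ : MeasurableSpace W) (P : Measure W) (_ : IsProbabilityMeasure P)
      (S : W → Matrix (Fin d) (Fin k) ℝ), IsOSI P S r (1 - ε) δ →
        ∃ D : Set W, MeasurableSet D ∧ p₀ ≤ P.real D ∧
          ∀ w ∈ D, frob (A - rsvd A (S w)) ≤ (1 + C * ε) * bestErr A r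

lemma bestErr_nonneg {n d : ℕ} (A : Matrix (Fin n) (Fin d) ℝ) (r : ℕ) : 0 ≤ bestErr A r := by
  unfold bestErr
  apply Real.sInf_nonneg
  rintro e ⟨B, _, rfl⟩
  exact Real.sqrt_nonneg _

/-- For every constant failure probability `δ > 0` there are `γ > 0`, one matrix `A` and one random
test matrix `S`, which is an OSI of dimension `1`, injectivity `1` (so `1 - ε` for all `ε ≥ 0`) and
failure probability `δ`, such that for EVERY outcome the squared error of the randomized SVD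
is positive and at least `(1 + γ)` times the squared optimal rank-one error. -/
def Example (δ γ : ℝ) : Prop :=
  ∃ (d k : ℕ) (_ : 1 ≤ d) (A : Matrix (Fin d) (Fin d) ℝ)
      (W : Type) (_ : MeasurableSpace W) (P : Measure W) (_ : IsProbabilityMeasure P)
      (S : W → Matrix (Fin d) (Fin k) ℝ),
      (∀ ε : ℝ, 0 ≤ ε → IsOSI P S 1 (1 - ε) δ) ∧
        ∀ w, 0 < frob (A - rsvd A (S w)) ∧
          (1 + γ) * bestErr A 1 ^ 2 ≤ frob (A - rsvd A (S w)) ^ 2

theorem example_exists (δ : ℝ) (hδ : 0 < δ) : ∃ γ : ℝ, 0 < γ ∧ Example δ γ := by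
  obtain ⟨K, hK2, hKδ⟩ : ∃ K : ℕ, 2 ≤ K ∧ 2 ≤ δ * K := by
    obtain ⟨K, hK⟩ := exists_nat_ge (2 / δ + 2)
    refine ⟨K, ?_, ?_⟩
    · have : (2 : ℝ) ≤ K := by
        have : 0 < 2 / δ := by positivity
        linarith
      exact_mod_cast this
    · have h1 : 2 / δ ≤ K := by linarith
      rw [div_le_iff₀ hδ] at h1
      linarith
  have hKr : (2 : ℝ) ≤ K := by exact_mod_cast hK2
  have : NeZero K := ⟨by omega⟩
  -- coherence budget
  set μ : ℝ := 1 / (K : ℝ) ^ 2 with hμ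
  have hμ0 : 0 < μ := by positivity
  have hμK : 2 * μ ^ 2 * (K : ℝ) ^ 3 ≤ 1 := by
    rw [hμ]
    have e : 2 * (1 / (K : ℝ) ^ 2) ^ 2 * (K : ℝ) ^ 3 = 2 / K := by field_simp
    rw [e, div_le_one (by linarith)]
    exact hKr
  have hμ1 : μ ≤ 1 / 4 := by
    rw [hμ, div_le_div_iff₀ (by positivity) (by norm_num)]
    nlinarith
  set s : ℝ := μ / 2 with hs
  have hs0 : 0 < s := by positivity
  have hs1 : s ≤ 1 := by linarith
  have hs2 : s ^ 2 ≤ 1 := by nlinarith
  obtain ⟨q, hq⟩ := exists_nat_ge (2 / μ + 16 / s ^ 2 + 2)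
  obtain ⟨p, hpq, hp⟩ := Nat.exists_infinite_primes q
  have : Fact p.Prime := ⟨hp⟩
  have hpr : 2 / μ + 16 / s ^ 2 + 2 ≤ p := hq.trans (by exact_mod_cast hpq)
  have h2μ : 0 < 2 / μ := by positivity
  have h8s : 0 < 16 / s ^ 2 := by positivity
  obtain ⟨w, hw1, hw2, hw3⟩ := exists_lowcoh p
  have hb : ∀ j, gram (brow s w) j j = 1 := by
    intro j
    refine Fin.cases ?_ (fun j => ?_) j
    · exact gram_brow_zero s w
    · rw [gram_brow_succ s hs2, hw1]; ring
  have hcoh : 1 / ((p : ℝ) - 1) ≤ μ / 2 := by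
    have h1 : 2 / μ ≤ (p : ℝ) - 1 := by linarith
    rw [div_le_iff₀ (by linarith)]
    rw [div_le_iff₀ hμ0] at h1
    linarith
  have hgram : ∀ j l, j ≠ l → |gram (brow s w) j l| ≤ μ := by
    intro j l hjl
    refine Fin.cases (fun hl => ?_) (fun j hl => ?_) j hjl
    · obtain ⟨l', rfl⟩ := Fin.exists_succ_eq.mpr (Ne.symm hl)
      rw [gram_brow_zero_succ, abs_of_pos hs0]
      linarith
    · revert hl
      refine Fin.cases (fun hl => ?_) (fun l hl => ?_) l
      · rw [gram_symm, gram_brow_zero_succ, abs_of_pos hs0]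
        linarith
      · have hne : j ≠ l := fun h => hl (by rw [h])
        rw [gram_brow_succ s hs2]
        have h1 := hw2 j l hne
        have h2 : |s ^ 2 + (1 - s ^ 2) * ∑ i, w j i * w l i| ≤
            s ^ 2 + |∑ i, w j i * w l i| := by
          refine (abs_add_le _ _).trans ?_
          rw [abs_of_nonneg (sq_nonneg s), abs_mul, abs_of_nonneg (by linarith : 0 ≤ 1 - s ^ 2)]
          have := abs_nonneg (∑ i, w j i * w l i)
          nlinarith [sq_nonneg s]
        have h3 : s ^ 2 ≤ μ / 2 := by rw [hs]; nlinarith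
        linarith
  have hp0 : (0 : ℝ) < p := by linarith
  have hNpos : 0 < p ^ 3 := pow_pos hp.pos 3
  have hk : ((p ^ 2 : ℕ) : ℝ) + 1 ≤ ((p ^ 3 : ℕ) : ℝ) * s ^ 2 / 4 := by
    push_cast
    have h1 : 16 / s ^ 2 ≤ p := by linarith
    rw [div_le_iff₀ (by positivity)] at h1
    have h2 : (1 : ℝ) ≤ (p : ℝ) ^ 2 := by
      have : (1 : ℝ) ≤ p := by linarith
      nlinarith
    have h3 : (p : ℝ) ^ 3 * s ^ 2 / 4 = (p : ℝ) ^ 2 * (p * s ^ 2) / 4 := by ring
    rw [h3]
    nlinarith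
  refine ⟨s ^ 2 / 4, by positivity, p ^ 3 + 1, p ^ 2 + 1, by omega, diagonal (avec (p ^ 3)),
    Smp K (p ^ 3 + 1), inferInstance, unif (Smp K (p ^ 3 + 1)), inferInstance,
    Smat K (brow s w), ?_, ?_⟩
  · intro ε hε
    exact isOSI_Smat hK2 (brow s w) hb μ hgram hμK δ hKδ ε hε
  · intro ω
    have h1 := err_lower hK2 s hs1 hs0 w hw3 hNpos hk ω
    have h2 := bestErr_le (p ^ 3)
    have h3 := bestErr_nonneg (diagonal (avec (p ^ 3))) 1
    have h4 : bestErr (diagonal (avec (p ^ 3))) 1 ^ 2 ≤ ((p ^ 3 : ℕ) : ℝ) := by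
      calc bestErr (diagonal (avec (p ^ 3))) 1 ^ 2 ≤ Real.sqrt ((p ^ 3 : ℕ) : ℝ) ^ 2 := by
            gcongr
        _ = _ := Real.sq_sqrt (Nat.cast_nonneg _)
    have h5 : (0 : ℝ) < ((p ^ 3 : ℕ) : ℝ) := by exact_mod_cast hNpos
    constructor
    · have h6 : 0 < frob (diagonal (avec (p ^ 3)) -
          rsvd (diagonal (avec (p ^ 3))) (Smat K (brow s w) ω)) ^ 2 := by
        refine lt_of_lt_of_le ?_ h1
        positivity
      have h7 : 0 ≤ frob (diagonal (avec (p ^ 3)) -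
          rsvd (diagonal (avec (p ^ 3))) (Smat K (brow s w) ω)) := Real.sqrt_nonneg _
      rcases h7.eq_or_lt with h8 | h8
      · rw [← h8] at h6; norm_num at h6
      · exact h8
    · refine le_trans ?_ h1
      rw [mul_comm]
      exact mul_le_mul_of_nonneg_right h4 (by positivity)

/-- **Q1 fails**, for every constant failure probability `δ > 0` (in particular `δ = 0.01`), all
constants `C` and all success probabilities `p₀ > 0`; and there are examples in which the error of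
the randomized SVD exceeds the optimal one by a constant factor for every outcome. -/
theorem result : (∀ δ : ℝ, 0 < δ → ∀ C p₀ : ℝ, 0 < p₀ → ¬ ConstBound δ C p₀) ∧
    ∀ δ : ℝ, 0 < δ → ∃ γ : ℝ, 0 < γ ∧ Example δ γ := by
  refine ⟨fun δ hδ C p₀ hp₀ hB => ?_, example_exists⟩
  obtain ⟨γ, hγ, d, k, hd, A, W, mW, P, hP, S, hS, hE⟩ := example_exists δ hδ
  set C' : ℝ := max C 0 with hC'
  have hC0 : 0 ≤ C' := le_max_right _ _
  -- a small ε
  obtain ⟨ε, hε0, hε1, hε2⟩ : ∃ ε : ℝ, 0 < ε ∧ ε < 1 ∧ (1 + C' * ε) ^ 2 < 1 + γ := by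
    have h1 : Filter.Tendsto (fun ε : ℝ => (1 + C' * ε) ^ 2) (nhdsWithin 0 (Set.Ioi 0))
        (nhds 1) := by
      have h2 : Continuous fun ε : ℝ => (1 + C' * ε) ^ 2 := by fun_prop
      have h3 := h2.tendsto 0
      simp only [mul_zero, add_zero, one_pow] at h3
      exact h3.mono_left nhdsWithin_le_nhds
    have h2 := h1.eventually (gt_mem_nhds (show (1 : ℝ) < 1 + γ by linarith))
    have h3 : ∀ᶠ ε : ℝ in nhdsWithin 0 (Set.Ioi 0), ε ∈ Set.Ioo (0 : ℝ) 1 :=
      Ioo_mem_nhdsGT (by norm_num)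
    obtain ⟨ε, h4, h5⟩ := (h2.and h3).exists
    exact ⟨ε, h5.1, h5.2, h4⟩
  obtain ⟨D, _, hD2, hD3⟩ := hB ε hε0 hε1 d d k 1 le_rfl hd A W mW P hP S (hS ε hε0.le)
  have hne : D.Nonempty := by
    by_contra h
    rw [Set.not_nonempty_iff_eq_empty] at h
    rw [h] at hD2
    simp at hD2
    linarith
  obtain ⟨w, hw⟩ := hne
  have h1 := hD3 w hw
  obtain ⟨h2, h3⟩ := hE w
  have hb0 := bestErr_nonneg A 1
  have h4 : frob (A - rsvd A (S w)) ≤ (1 + C' * ε) * bestErr A 1 := by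
    refine h1.trans (mul_le_mul_of_nonneg_right ?_ hb0)
    have : C * ε ≤ C' * ε := mul_le_mul_of_nonneg_right (le_max_left _ _) hε0.le
    linarith
  have h5 : frob (A - rsvd A (S w)) ^ 2 ≤ (1 + C' * ε) ^ 2 * bestErr A 1 ^ 2 := by
    rw [← mul_pow]
    exact pow_le_pow_left₀ h2.le h4 2
  have hbpos : 0 < bestErr A 1 := by
    rcases hb0.eq_or_lt with h | h
    · rw [← h, mul_zero] at h4; linarith
    · exact h
  have h6 : (1 + γ) * bestErr A 1 ^ 2 ≤ (1 + C' * ε) ^ 2 * bestErr A 1 ^ 2 := h3.trans h5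
  have h7 : 0 < bestErr A 1 ^ 2 := by positivity
  have h8 := le_of_mul_le_mul_right h6 h7
  linarith

end Pool.Agent.Results.MP_082b65_an.ConstantFailure
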